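import Pool.Agent.Helper81.PC.St

set_option autoImplicit false

/-!
# Project PC, module E: certificates
-/

namespace Pool.Agent.Helper76.PC

open Helper11.CT Helper55.PC Helper81.PC

theorem roN_zero_E (N Q x : ℕ) : roN 0 N Q x =
    Bool.rec (motive := fun _ => Bool) false
      (Bool.rec (motive := fun _ => Bool) false
        (Nat.ble (x % ZN) 9223372032559808512) (Nat.ble 1 (x % ZN))) (Nat.ble 1 Q) := rfl

theorem roN_succ_E (r N Q x : ℕ) : roN (r + 1) N Q x =
    roN r (N / 65536) (Nat.shiftRight (Nat.shiftRight Q (544 * (N % 64))) 544)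
      ((N / 64 % 1024 + 1) * (Nat.shiftRight Q (544 * (N % 64)) % ZN) + x) := rfl

theorem sh0_E (k : ℕ) : Nat.shiftRight 0 k = 0 := Nat.zero_shiftRight k

theorem roN_false_E (r : ℕ) : ∀ N x : ℕ, roN r N 0 x = false := by
  induction r with
  | zero => intro N x; rfl
  | succ r ih =>
    intro N x
    rw [roN_succ_E, sh0_E, sh0_E]
    exact ih _ _

theorem dlN_succ_E (r N : ℕ) : dlN (r + 1) N = (N % 64, N / 64 % 1024) :: dlN r (N / 65536) := rfl

theorem comb_nil_E (Q : List Con) (acc : List ℤ) (S : ℤ) (st : Bool) :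
    comb [] Q acc S st = fin acc S st := rfl

theorem comb_none_E (s m : ℕ) (l : List (ℕ × ℕ)) (Q : List Con) (acc : List ℤ) (S : ℤ) (st : Bool)
    (h : drp s Q = []) : comb ((s, m) :: l) Q acc S st = false := by
  show (match drp s Q with
      | [] => false
      | (true, e) :: Q' => comb l Q' (axpy (Int.negSucc m) e acc) (iadd S (Int.ofNat (Nat.succ m))) st
      | (false, e) :: Q' => comb l Q' (axpy (Int.negSucc m) e acc) S true) = false
  rw [h]

theorem comb_true_E (s m : ℕ) (l : List (ℕ × ℕ)) (Q : List Con) (acc : List ℤ) (S : ℤ) (st : Bool)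
    (e : List ℤ) (Q' : List Con) (h : drp s Q = (true, e) :: Q') :
    comb ((s, m) :: l) Q acc S st =
      comb l Q' (axpy (Int.negSucc m) e acc) (iadd S (Int.ofNat (Nat.succ m))) st := by
  show (match drp s Q with
      | [] => false
      | (true, e) :: Q' => comb l Q' (axpy (Int.negSucc m) e acc) (iadd S (Int.ofNat (Nat.succ m))) st
      | (false, e) :: Q' => comb l Q' (axpy (Int.negSucc m) e acc) S true) = _
  rw [h]

theorem comb_false_E (s m : ℕ) (l : List (ℕ × ℕ)) (Q : List Con) (acc : List ℤ) (S : ℤ) (st : Bool)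
    (e : List ℤ) (Q' : List Con) (h : drp s Q = (false, e) :: Q') :
    comb ((s, m) :: l) Q acc S st = comb l Q' (axpy (Int.negSucc m) e acc) S true := by
  show (match drp s Q with
      | [] => false
      | (true, e) :: Q' => comb l Q' (axpy (Int.negSucc m) e acc) (iadd S (Int.ofNat (Nat.succ m))) st
      | (false, e) :: Q' => comb l Q' (axpy (Int.negSucc m) e acc) S true) = _
  rw [h]

theorem abs_negSucc_E (m : ℕ) : |Int.negSucc m| = (m : ℤ) + 1 := by
  rw [Int.negSucc_eq, abs_neg, abs_of_nonneg (by omega)]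

theorem main_E (hA : StA) (hC : StC) (hD : StD) (r : ℕ) :
    ∀ (N : ℕ) (Q : List Con) (acc : List ℤ) (S : ℤ) (st : Bool) (T x : ℕ) (b : ℤ),
    GQ Q → acc.length ≤ 16 → 0 ≤ b → (∀ y ∈ acc, |y| ≤ b) → b + 4200000 * r ≤ 1000000000 →
    0 ≤ S → S + 1024 * r ≤ 1000000 → T + 1024 * r ≤ 1000000 → (st = false → T = 0) →
    (x : ℤ) ≡ BB * (phi BB acc + S) + T [ZMOD ZZ] → roN r N (pkQ Q) x = true →
    comb (dlN r N) Q acc S st = true := by
  induction r with
  | zero =>
    intro N Q acc S st T x b hQ hl hb hacc hb1 hS hS1 hT hst hx h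
    show comb [] Q acc S st = true
    rw [comb_nil_E]
    rw [roN_zero_E] at h
    have h1 : 1 ≤ x % ZN := by
      cases h1 : Nat.ble 1 (pkQ Q) with
      | false => rw [h1] at h; exact absurd (show false = true from h) (by decide)
      | true =>
        rw [h1] at h
        cases h2 : Nat.ble 1 (x % ZN) with
        | false => rw [h2] at h; exact absurd (show false = true from h) (by decide)
        | true => exact Nat.le_of_ble_eq_true h2
    have h3 : x % ZN ≤ 9223372032559808512 := by
      cases h1 : Nat.ble 1 (pkQ Q) with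
      | false => rw [h1] at h; exact absurd (show false = true from h) (by decide)
      | true =>
        rw [h1] at h
        cases h2 : Nat.ble 1 (x % ZN) with
        | false => rw [h2] at h; exact absurd (show false = true from h) (by decide)
        | true =>
          rw [h2] at h
          exact Nat.le_of_ble_eq_true h
    refine hC acc S T x st hl (fun y hy => ?_) ?_ ?_ hst hx h1 h3
    · have := hacc y hy
      push_cast at hb1
      linarith
    · rw [abs_of_nonneg hS]
      push_cast at hS1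
      linarith
    · omega
  | succ r ih =>
    intro N Q acc S st T x b hQ hl hb hacc hb1 hS hS1 hT hst hx h
    rw [roN_succ_E] at h
    rw [dlN_succ_E]
    obtain ⟨m, hm⟩ : ∃ m, m = N / 64 % 1024 := ⟨_, rfl⟩
    have hm1 : m < 1024 := by
      rw [hm]
      exact Nat.mod_lt _ (by norm_num)
    rw [← hm] at h ⊢
    have hm1' : (m : ℤ) + 1 ≤ 1024 := by omega
    obtain ⟨hd1, hd2⟩ := hD.2 (N % 64) Q hQ
    push_cast at hb1 hS1
    rcases hdr : drp (N % 64) Q with _ | ⟨⟨t, e⟩, Q'⟩
    · rw [hd2 hdr, roN_false_E] at h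
      exact absurd h (by decide)
    · obtain ⟨e1, hQ'⟩ := hd1 (t, e) Q' hdr
      obtain ⟨e2, e3⟩ := hD.1 (t, e) Q' hQ'
      rw [e1, e2] at h
      have hQ'' : GQ Q' := fun c hc => hQ' c (List.mem_cons_of_mem _ hc)
      obtain ⟨he1, he2⟩ := hQ' (t, e) List.mem_cons_self
      obtain ⟨a1, a2, a3⟩ := hA (Int.negSucc m) e acc
      have hl' : (axpy (Int.negSucc m) e acc).length ≤ 16 := le_trans a2 (max_le he1 hl)
      have hb' : ∀ y ∈ axpy (Int.negSucc m) e acc, |y| ≤ b + 4194304 := by
        intro y hy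
        have h1 := a3 4096 b (by norm_num) hb he2 hacc y hy
        rw [abs_negSucc_E] at h1
        linarith
      have hph : phi BB (axpy (Int.negSucc m) e acc) = -((m : ℤ) + 1) * phi BB e + phi BB acc := by
        rw [a1, Int.negSucc_eq]
      have hx' : ((((m + 1) * (pkQ ((t, e) :: Q') % ZN) + x : ℕ)) : ℤ) ≡
          ((m : ℤ) + 1) * wd (t, e) + (BB * (phi BB acc + S) + T) [ZMOD ZZ] := by
        have h1 : ((((m + 1) * (pkQ ((t, e) :: Q') % ZN) + x : ℕ)) : ℤ) =
            ((m : ℤ) + 1) * ((pkQ ((t, e) :: Q') % ZN : ℕ) : ℤ) + (x : ℤ) := by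
          rw [Nat.cast_add, Nat.cast_mul, Nat.cast_add, Nat.cast_one]
        rw [h1]
        exact (e3.mul_left _).add hx
      cases t with
      | true =>
        rw [comb_true_E _ _ _ _ _ _ _ e Q' hdr]
        refine ih _ Q' _ _ st T _ (b + 4194304) hQ'' hl' (by linarith) hb' (by linarith) ?_ ?_ ?_ hst ?_ h
        · rw [iadd_eq, Int.ofNat_eq_natCast]
          push_cast
          linarith
        · rw [iadd_eq, Int.ofNat_eq_natCast]
          push_cast
          linarith
        · omega
        · refine hx'.trans ?_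
          rw [hph, iadd_eq, Int.ofNat_eq_natCast]
          have : ((m : ℤ) + 1) * wd (true, e) + (BB * (phi BB acc + S) + T) =
              BB * (-((m : ℤ) + 1) * phi BB e + phi BB acc + (S + ((Nat.succ m : ℕ) : ℤ))) + T := by
            show ((m : ℤ) + 1) * (BB * (1 - phi BB e)) + (BB * (phi BB acc + S) + T) = _
            rw [Nat.cast_succ]
            ring
          rw [this]
      | false =>
        rw [comb_false_E _ _ _ _ _ _ _ e Q' hdr]
        refine ih _ Q' _ _ true (T + (m + 1)) _ (b + 4194304) hQ'' hl' (by linarith) hb' (by linarith) hS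
          (by linarith) (by omega) (fun h => absurd h (by decide)) ?_ h
        refine hx'.trans ?_
        rw [hph]
        have : ((m : ℤ) + 1) * wd (false, e) + (BB * (phi BB acc + S) + T) =
            BB * (-((m : ℤ) + 1) * phi BB e + phi BB acc + S) + ((T + (m + 1) : ℕ) : ℤ) := by
          show ((m : ℤ) + 1) * (1 - BB * phi BB e) + (BB * (phi BB acc + S) + T) = _
          rw [Nat.cast_add, Nat.cast_add, Nat.cast_one]
          ring
        rw [this]

theorem hE (hA : StA) (hC : StC) (hD : StD) : StE := by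
  intro Q N v g hQ hv h
  have h' : roN (N % 32) (N / 32768) (pkQ Q) (4294967296 * (N / 32 % 1024 + 1) * v) = true := h
  have hr : N % 32 ≤ 31 := by omega
  have hr' : ((N % 32 : ℕ) : ℤ) ≤ 31 := by exact_mod_cast hr
  obtain ⟨l, hl⟩ : ∃ l, l = N / 32 % 1024 := ⟨_, rfl⟩
  have hl1 : l < 1024 := by
    rw [hl]
    exact Nat.mod_lt _ (by norm_num)
  rw [← hl] at h'
  have hxc : ((4294967296 * (l + 1) * v : ℕ) : ℤ) ≡ BB * (((l : ℤ) + 1) * phi BB g) [ZMOD ZZ] := by
    have h1 : ((4294967296 * (l + 1) * v : ℕ) : ℤ) = BB * ((l : ℤ) + 1) * (v : ℤ) := by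
      rw [Nat.cast_mul, Nat.cast_mul, Nat.cast_add, Nat.cast_one]
      rfl
    rw [h1, ← mul_assoc]
    exact hv.cg.mul_left _
  show cert Q (Cert.mk (N / 32 % 1024) (dlN (N % 32) (N / 32768))) g = true
  rw [← hl]
  cases l with
  | zero =>
    show comb (dlN (N % 32) (N / 32768)) Q g (Int.ofNat 0) false = true
    refine main_E hA hC hD (N % 32) _ Q g (Int.ofNat 0) false 0 _ 100000 hQ hv.len (by norm_num) hv.bd
      ?_ (le_refl _) ?_ ?_ (fun _ => rfl) ?_ h'
    · linarith
    · rw [Int.ofNat_eq_natCast]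
      push_cast
      linarith
    · omega
    · refine hxc.trans ?_
      have : BB * ((((0 : ℕ) : ℤ) + 1) * phi BB g) = BB * (phi BB g + Int.ofNat 0) + ((0 : ℕ) : ℤ) := by
        rw [Int.ofNat_eq_natCast, Nat.cast_zero]
        ring
      rw [this]
  | succ n =>
    show comb (dlN (N % 32) (N / 32768)) Q (axpy (Int.ofNat (n + 2)) g []) (Int.ofNat 0) false = true
    obtain ⟨a1, a2, a3⟩ := hA (Int.ofNat (n + 2)) g []
    have hn : ((n + 2 : ℕ) : ℤ) ≤ 1024 := by
      have : n + 2 ≤ 1024 := by omega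
      exact_mod_cast this
    refine main_E hA hC hD (N % 32) _ Q _ (Int.ofNat 0) false 0 _ 102400000 hQ ?_ (by norm_num) ?_
      ?_ (le_refl _) ?_ ?_ (fun _ => rfl) ?_ h'
    · refine le_trans a2 (max_le hv.len ?_)
      exact Nat.zero_le _
    · intro y hy
      have h1 := a3 100000 0 (by norm_num) (le_refl _) hv.bd (fun x hx => absurd hx (by simp)) y hy
      rw [Int.ofNat_eq_natCast, Nat.abs_cast] at h1
      linarith
    · linarith
    · rw [Int.ofNat_eq_natCast]
      push_cast
      linarith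
    · omega
    · refine hxc.trans ?_
      rw [a1]
      have : BB * ((((n + 1 : ℕ) : ℤ) + 1) * phi BB g) =
          BB * (Int.ofNat (n + 2) * phi BB g + phi BB [] + Int.ofNat 0) + ((0 : ℕ) : ℤ) := by
        rw [Int.ofNat_eq_natCast, Int.ofNat_eq_natCast, phi_nil, Nat.cast_zero]
        rw [Nat.cast_add, Nat.cast_add, Nat.cast_one, Nat.cast_ofNat]
        ring
      rw [this]

end Pool.Agent.Helper76.PC
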